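import Mathlib
import Pool.Agent.H.MP_035d7c_an.A

namespace Pool.Agent.Results.MP_035d7c_an.Yes

open Set Filter Topology Finset Pool.Agent.H.MP_035d7c_an
open scoped ENNReal NNReal

/-- the term with index `n + 1` -/
noncomputable def a (α : Fin 2 → ℝ) (n : ℕ) : Fin 2 → ℝ := fun c => ((n : ℝ) + 1) ^ (-α c)

/-- the set of sums of the convergent signed series -/
def S (α : Fin 2 → ℝ) : Set (Fin 2 → ℝ) := {L | ∃ ε : Om, ε ∈ lev (a α) L}

theorem abs_sg (b : Bool) : |sg b| = 1 := by cases b <;> simp [sg]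

theorem sum_blocks (x : ℕ → ℝ) (q J : ℕ) :
    ∑ n ∈ range (q * J), x n = ∑ j ∈ range J, ∑ i ∈ range q, x (q * j + i) := by
  induction J with
  | zero => simp
  | succ J ih => rw [Nat.mul_succ, sum_range_add, ih, sum_range_succ]

theorem block_tendsto (x b : ℕ → ℝ) (hb : Antitone b) (hx : ∀ n, |x n| ≤ b n)
    (h0 : Tendsto b atTop (𝓝 0)) (q : ℕ) (hq : 0 < q) (l : ℝ)
    (h : Tendsto (fun J => ∑ n ∈ range (q * J), x n) atTop (𝓝 l)) :
    Tendsto (fun N => ∑ n ∈ range N, x n) atTop (𝓝 l) := by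
  have hd : Tendsto (fun N => N / q) atTop atTop := Nat.tendsto_div_const_atTop hq.ne'
  have h1 : Tendsto (fun N => ∑ i ∈ range (N % q), x (q * (N / q) + i)) atTop (𝓝 0) := by
    refine squeeze_zero_norm (fun N => ?_) (by simpa using (h0.comp hd).const_mul (q : ℝ))
    have h2 : 0 ≤ b (N / q) := (abs_nonneg _).trans (hx _)
    calc _ ≤ ∑ i ∈ range (N % q), b (N / q) :=
          (abs_sum_le_sum_abs _ _).trans (sum_le_sum fun i _ => (hx _).trans
            (hb (by nlinarith [Nat.zero_le (N / q)])))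
      _ ≤ q * b (N / q) := by
          rw [sum_const, card_range, nsmul_eq_mul]
          gcongr
          exact (Nat.mod_lt N hq).le
  have h2 := (h.comp hd).add h1
  rw [add_zero] at h2
  refine h2.congr fun N => ?_
  simp only [Function.comp]
  rw [← sum_range_add, Nat.div_add_mod]

theorem bal {k : ℕ} {T : Finset ℕ} (hT : T ∈ powersetCard k (range (2 * k))) :
    ∑ i ∈ range (2 * k), sg (decide (i ∈ T)) = 0 := by
  obtain ⟨h1, h2⟩ := mem_powersetCard.1 hT
  have h3 : ∀ i, sg (decide (i ∈ T)) = 2 * (if i ∈ T then 1 else 0) - 1 := fun i => by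
    by_cases h : i ∈ T <;> simp [sg, h]
    norm_num
  simp only [h3, sum_sub_distrib, ← mul_sum, sum_boole, sum_const, card_range]
  rw [filter_mem_eq_inter, Finset.inter_eq_right.2 h1, h2]
  simp

theorem summ (b : ℕ → ℝ) (hb : Antitone b) (h0 : ∀ n, 0 ≤ b n) (k : ℕ) (T : ℕ → Finset ℕ)
    (hT : ∀ j, T j ∈ powersetCard k (range (2 * k))) :
    Summable fun j => ∑ i ∈ range (2 * k), sg (decide (i ∈ T j)) * b ((2 * k + 1) * j + i) := by
  have h1 : Summable fun j => b ((2 * k + 1) * j) - b ((2 * k + 1) * (j + 1)) := by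
    refine summable_of_sum_range_le (c := b 0) (fun j => sub_nonneg.2 (hb (by nlinarith)))
      fun n => ?_
    rw [sum_range_sub' (fun j => b ((2 * k + 1) * j))]
    simpa using h0 _
  refine Summable.of_norm_bounded (h1.mul_left ((2 * k : ℕ) : ℝ)) fun j => ?_
  have h2 : ∑ i ∈ range (2 * k), sg (decide (i ∈ T j)) * b ((2 * k + 1) * j + i) =
      ∑ i ∈ range (2 * k), sg (decide (i ∈ T j)) *
        (b ((2 * k + 1) * j + i) - b ((2 * k + 1) * (j + 1))) := by
    simp only [mul_sub, sum_sub_distrib, ← sum_mul, bal (hT j)]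
    simp
  rw [h2]
  refine (abs_sum_le_sum_abs _ _).trans ((sum_le_sum fun i hi => ?_).trans
    (le_of_eq (by rw [sum_const, card_range, nsmul_eq_mul])))
  have h3 := mem_range.1 hi
  rw [abs_mul, abs_sg, one_mul, abs_of_nonneg (sub_nonneg.2 (hb (by nlinarith)))]
  linarith [hb (Nat.le_add_right ((2 * k + 1) * j) i)]

theorem a_anti {α : Fin 2 → ℝ} (hα : ∀ c, 0 < α c) (c : Fin 2) : Antitone fun n => a α n c :=
  fun m n h => Real.rpow_le_rpow_of_nonpos (by positivity) (by simpa using h)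
    (by simpa using (hα c).le)

theorem a_zero {α : Fin 2 → ℝ} (hα : ∀ c, 0 < α c) (c : Fin 2) :
    Tendsto (fun n => a α n c) atTop (𝓝 0) :=
  (tendsto_rpow_neg_atTop (hα c)).comp
    (tendsto_atTop_add_const_right _ _ tendsto_natCast_atTop_atTop)

theorem a_ctrl (α : Fin 2 → ℝ) (k j : ℕ) (c : Fin 2) :
    a α ((2 * k + 1) * j + 2 * k) c = ((2 * k + 1 : ℕ) : ℝ) ^ (-α c) * a α j c := by
  simp only [a]
  rw [← Real.mul_rpow (by positivity) (by positivity)]
  congr 1
  push_cast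
  ring

theorem steer {α : Fin 2 → ℝ} (hα : ∀ c, 0 < α c) (hS : S α = Set.univ) (L : Fin 2 → ℝ) (k : ℕ)
    (T : ℕ → Finset ℕ) (hT : ∀ j, T j ∈ powersetCard k (range (2 * k))) :
    ∃ ε ∈ lev (a α) L, ∀ j, ∀ i < 2 * k, ε ((2 * k + 1) * j + i) = decide (i ∈ T j) := by
  have hs := fun c => summ _ (a_anti hα c) (fun n => by simp only [a]; positivity) k T hT
  obtain ⟨η, hη⟩ : (fun c => ((2 * k + 1 : ℕ) : ℝ) ^ α c * (L c - ∑' j, ∑ i ∈ range (2 * k),
      sg (decide (i ∈ T j)) * a α ((2 * k + 1) * j + i) c)) ∈ S α := by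
    rw [hS]
    trivial
  set ε : Om := fun n => if n % (2 * k + 1) = 2 * k then η (n / (2 * k + 1))
    else decide (n % (2 * k + 1) ∈ T (n / (2 * k + 1))) with hε
  have hm : ∀ j, ∀ i < 2 * k + 1, ((2 * k + 1) * j + i) % (2 * k + 1) = i ∧
      ((2 * k + 1) * j + i) / (2 * k + 1) = j := fun j i hi =>
    ⟨by rw [Nat.mul_add_mod, Nat.mod_eq_of_lt hi],
      by rw [Nat.mul_add_div (by omega), Nat.div_eq_of_lt hi, add_zero]⟩
  have h1 : ∀ j, ∀ i < 2 * k, ε ((2 * k + 1) * j + i) = decide (i ∈ T j) := fun j i hi => by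
    simp only [hε, (hm j i (by omega)).1, (hm j i (by omega)).2, if_neg hi.ne]
  have h2 : ∀ j, ε ((2 * k + 1) * j + 2 * k) = η j := fun j => by
    simp only [hε, (hm j (2 * k) (by omega)).1, (hm j (2 * k) (by omega)).2, if_true]
  refine ⟨ε, tendsto_pi_nhds.2 fun c => ?_, h1⟩
  simp only [Finset.sum_apply, Pi.smul_apply, smul_eq_mul]
  refine block_tendsto _ _ (a_anti hα c) (fun n => ?_) (a_zero hα c) (2 * k + 1) (by omega) _ ?_
  · rw [abs_mul, abs_sg, one_mul, abs_of_nonneg (by simp only [a]; positivity)]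
  have h3 := ((tendsto_pi_nhds.1 hη c).const_mul (((2 * k + 1 : ℕ) : ℝ) ^ (-α c))).add
    (hs c).hasSum.tendsto_sum_nat
  rw [← mul_assoc, ← Real.rpow_add (by positivity), neg_add_cancel, Real.rpow_zero, one_mul,
    sub_add_cancel] at h3
  refine h3.congr fun J => ?_
  simp only [Finset.sum_apply, Pi.smul_apply, smul_eq_mul]
  rw [sum_blocks, mul_sum, ← sum_add_distrib]
  refine sum_congr rfl fun j _ => ?_
  rw [sum_range_succ, h2, a_ctrl, add_comm]
  congr 1
  · exact sum_congr rfl fun i hi => by rw [h1 j i (mem_range.1 hi)]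
  · ring

theorem big (s : ℝ) (hs : s < 1) : ∃ k : ℕ, 0 < k ∧
    (2 : ℝ) ^ (s * (2 * k + 1 : ℕ)) ≤ ((2 * k).choose k : ℕ) := by
  have hr : (1 : ℝ) < 2 ^ (1 - s) := Real.one_lt_rpow (by norm_num) (by linarith)
  have h1 := (tendsto_pow_const_div_const_pow_of_one_lt 1 hr).comp
    (tendsto_atTop_mono (f := id) (g := fun k : ℕ => 2 * k + 1) (fun k => by simp; omega)
      tendsto_id)
  obtain ⟨k, hk, hk0⟩ := ((h1.eventually (gt_mem_nhds (by norm_num : (0 : ℝ) < 1 / 2))).and
    (eventually_gt_atTop 0)).exists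
  refine ⟨k, hk0, ?_⟩
  simp only [Function.comp, pow_one] at hk
  rw [div_lt_iff₀ (by positivity), ← Real.rpow_natCast, ← Real.rpow_mul (by norm_num)] at hk
  have h2 : (4 : ℝ) ^ k ≤ (2 * k + 1 : ℕ) * ((2 * k).choose k : ℕ) := by
    exact_mod_cast Nat.four_pow_le_two_mul_add_one_mul_central_binom k
  have h3 : (2 : ℝ) ^ (s * (2 * k + 1 : ℕ)) * 2 ^ ((1 - s) * (2 * k + 1 : ℕ)) = 2 * 4 ^ k := by
    rw [← Real.rpow_add (by norm_num), ← add_mul, add_sub_cancel, one_mul, Real.rpow_natCast,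
      pow_succ, pow_mul]
    norm_num [mul_comm]
  have h4 : (0 : ℝ) < (2 * k + 1 : ℕ) := by positivity
  have h5 : (0 : ℝ) < 2 ^ (s * (2 * k + 1 : ℕ)) := by positivity
  refine le_of_mul_le_mul_left (a := ((2 * k + 1 : ℕ) : ℝ)) ?_ h4
  nlinarith

theorem result (α : Fin 2 → ℝ) (hα : ∀ c, 0 < α c ∧ α c ≤ 1) (_hne : α 0 ≠ α 1)
    (hS : S α = Set.univ) (L : Fin 2 → ℝ) : dimH (lev (a α) L) = 1 := by
  classical
  refine le_antisymm (dimH_le_one _) (le_of_forall_lt_imp_le_of_dense fun r hr => ?_)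
  lift r to ℝ≥0 using (hr.trans ENNReal.one_lt_top).ne
  rcases eq_or_lt_of_le (zero_le (a := r)) with h0 | h0
  · simp [← h0]
  obtain ⟨k, hk0, hk⟩ := big r (by exact_mod_cast hr)
  have hc : (powersetCard k (range (2 * k))).card = (2 * k).choose k := by simp
  have hM : 1 < (2 * k).choose k := by
    have : (1 : ℝ) < 2 ^ ((r : ℝ) * (2 * k + 1 : ℕ)) :=
      Real.one_lt_rpow (by norm_num) (by positivity)
    exact_mod_cast this.trans_le hk
  set e := Finset.equivFinOfCardEq hc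
  set cd : Finset ℕ → Fin ((2 * k).choose k) := fun T =>
    if h : T ∈ powersetCard k (range (2 * k)) then e ⟨T, h⟩ else ⟨0, by omega⟩ with hcd
  refine le_dimH_of_code _ r h0 (2 * k + 1) _ (by omega) hM hk
    (fun j x => cd ((range (2 * k)).filter fun i => x ((2 * k + 1) * j + i) = true))
    (fun j x y h => ?_) fun w => ?_
  · congr 1
    exact filter_congr fun i hi => by rw [h _ (by nlinarith [mem_range.1 hi])]
  · obtain ⟨ε, h1, h2⟩ := steer (fun c => (hα c).1) hS L k (fun j => (e.symm (w j)).1)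
      fun j => (e.symm (w j)).2
    refine ⟨ε, h1, fun j => ?_⟩
    have h3 : ((range (2 * k)).filter fun i => ε ((2 * k + 1) * j + i) = true) =
        (e.symm (w j)).1 := by
      rw [filter_congr (q := fun i => i ∈ (e.symm (w j)).1) fun i hi => by
        rw [h2 j i (mem_range.1 hi), decide_eq_true_iff], filter_mem_eq_inter,
        Finset.inter_eq_right.2 (mem_powersetCard.1 (e.symm (w j)).2).1]
    simp only [h3, hcd, dif_pos (e.symm (w j)).2]
    simp

end Pool.Agent.Results.MP_035d7c_an.Yes
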